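import Mathlib
import Pool.Agent.TH465.LN.Nat
import Pool.Agent.TH465.PP.Law

/-! Concentration of the scaled values, at every scale. -/

set_option autoImplicit false

namespace Pool.Agent.TH465.SC
open Finset Filter Topology Pool.Agent.TH204.CP Pool.Agent.TH465.HP Pool.Agent.TH465.PP Pool.Agent.TH465.LN
open Pool.Agent.H499R2.HL (H)
open Pool.Agent.H499R2.LT (odn)
open Pool.Agent.H499R2.ND (Tn Dn Phi Phi_continuous phi_cdf)

lemma H_unique {k k' n : ℕ} (h : H k n) (h' : H k' n) : k = k' := by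
  rcases lt_trichotomy k k' with h1 | h1 | h1
  · exact absurd h.1 (h'.2 k h1)
  · exact h1
  · exact absurd h'.1 (h.2 k' h1)

/-- the scaled value is close to the constant -/
def Conc (val : ℕ → ℕ → ℝ) (A η : ℝ) (n : ℕ) : Prop :=
  ∃ k, H k n ∧ |val k (odn k n) / Real.log n - A| ≤ η

lemma ind_add_le {P Q R S : ℤ → Prop} {x : ℤ} (h1 : P x → R x) (h2 : Q x → R x) (h3 : P x → Q x → S x) :
    ind P x + ind Q x ≤ ind R x + ind S x := by
  have hr := ind_nn R x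
  have hs := ind_nn S x
  have one : ∀ T : ℤ → Prop, T x → ind T x = 1 := fun T hT => by unfold ind; rw [if_pos hT]
  have zero : ∀ T : ℤ → Prop, ¬ T x → ind T x = 0 := fun T hT => by unfold ind; rw [if_neg hT]
  by_cases hp : P x
  · by_cases hq : Q x
    · rw [one P hp, one Q hq, one R (h1 hp), one S (h3 hp hq)]
    · rw [one P hp, zero Q hq, one R (h1 hp)]; linarith
  · by_cases hq : Q x
    · rw [zero P hp, one Q hq, one R (h2 hq)]; linarith
    · rw [zero P hp, zero Q hq]; linarith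

lemma cnt_add_le {P Q R S : ℤ → Prop} {N : ℕ} (h1 : ∀ x, P x → R x) (h2 : ∀ x, Q x → R x)
    (h3 : ∀ x, P x → Q x → S x) : cnt P N + cnt Q N ≤ cnt R N + cnt S N := by
  unfold cnt
  rw [← sum_add_distrib, ← sum_add_distrib]
  exact sum_le_sum fun x _ => ind_add_le (h1 x) (h2 x) (h3 x)

theorem app_conc {val : ℕ → ℕ → ℝ} {A c δ η : ℝ} (hA : 0 ≤ A) (hc : 0 < c) (hv : ∀ k o, 0 ≤ val k o)
    (hfin : Dn (fun n => ∃ k, H k n) δ) (hlaw : LawG val A c δ) (hη : 0 < η) :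
    App (fun _ z => 0 < z ∧ Conc val A η z.toNat) δ := by
  apply App_of
  intro κ hκ
  set D : ℝ := |Real.log κ| with hD
  have hD0 : 0 ≤ D := abs_nonneg _
  filter_upwards [low_unif hA hc hfin hlaw (show A - η / 2 < A by linarith) (κ / 3) (by positivity),
    upp_unif hA hc hfin hlaw (show A < A + η / 2 by linarith) (κ / 3) (by positivity),
    fin_unif hfin (κ / 3) (by positivity), tlog.eventually_ge_atTop (2 * (A + η) * D / η),
    tlog.eventually_ge_atTop (D + 1), eventually_ge_atTop 1] with N h1 h2 h3 h4 h5 h6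
  refine ⟨fun k o => (A - η / 2) * Real.log N < val k o ∧ val k o ≤ (A + η / 2) * Real.log N,
    fun _ _ => True, ?_, ?_⟩
  · intro z hz hzκ
    rw [mem_Icc] at hz
    obtain ⟨w, rfl⟩ : ∃ w : ℕ, z = w := ⟨z.toNat, by omega⟩
    have hw1 : w ≤ N := by omega
    have hwκ : κ * N < w := by exact_mod_cast hzκ
    obtain ⟨g1, g2⟩ := log_scale hκ h6 hwκ hw1
    have hlw : 0 < Real.log (w : ℝ) := by linarith
    constructor
    · rintro ⟨g3, k, hk, g4, g5⟩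
      rw [Int.toNat_natCast] at hk g4 g5
      refine ⟨g3, k, ?_, ?_⟩
      · rw [Int.toNat_natCast]; exact hk
      · rw [Int.toNat_natCast]
        have hvn := hv k (odn k w)
        rw [div_le_iff₀ hη] at h4
        rw [abs_le]
        constructor
        · rw [neg_le_sub_iff_le_add, ← sub_le_iff_le_add, le_div_iff₀ hlw]
          rcases le_or_gt 0 (A - η) with h | h
          · have k1 : (A - η) * Real.log w ≤ (A - η) * Real.log N := mul_le_mul_of_nonneg_left g1 h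
            have k2 : (A - η) * Real.log N ≤ (A - η / 2) * Real.log N :=
              mul_le_mul_of_nonneg_right (by linarith) (by linarith)
            linarith
          · have : (A - η) * Real.log w ≤ 0 := mul_nonpos_of_nonpos_of_nonneg h.le hlw.le
            linarith
        · rw [sub_le_iff_le_add, div_le_iff₀ hlw]
          have k1 : (A + η) * (Real.log N - D) ≤ (A + η) * Real.log w :=
            mul_le_mul_of_nonneg_left (by linarith) (by linarith)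
          nlinarith
    · rintro ⟨g3, k, hk, _⟩
      exact ⟨g3, k, hk, trivial⟩
  · intro m hm
    have g1 := abs_le.1 (h1 m hm)
    have g2 := abs_le.1 (h2 m hm)
    have g3 := abs_le.1 (h3 m hm)
    have hN0 : (0 : ℝ) ≤ κ * N := by positivity
    have k1 : cnt (Dat (fun k o => (A - η / 2) * Real.log N < val k o ∧ val k o ≤ (A + η / 2) * Real.log N)) m ≤
        cnt (Dat (fun _ _ => True)) m := cnt_mono' fun z _ ⟨hz, k, hk, _⟩ => ⟨hz, k, hk, trivial⟩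
    have k2 : cnt (Dat (fun k o => (A - η / 2) * Real.log N < val k o)) m +
        cnt (Dat (fun k o => val k o ≤ (A + η / 2) * Real.log N)) m ≤ cnt (Dat (fun _ _ => True)) m +
        cnt (Dat (fun k o => (A - η / 2) * Real.log N < val k o ∧ val k o ≤ (A + η / 2) * Real.log N)) m := by
      refine cnt_add_le ?_ ?_ ?_
      · rintro z ⟨hz, k, hk, _⟩; exact ⟨hz, k, hk, trivial⟩
      · rintro z ⟨hz, k, hk, _⟩; exact ⟨hz, k, hk, trivial⟩
      · rintro z ⟨hz, k, hk, h⟩ ⟨_, k', hk', h'⟩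
        obtain rfl := H_unique hk hk'
        exact ⟨hz, k, hk, h, h'⟩
    constructor
    · rw [abs_le]; constructor <;> linarith [g1.1, g1.2, g2.1, g2.2, g3.1, g3.2]
    · rw [abs_le]; constructor <;> linarith [g3.1, g3.2]

/-! ### Counts and sums along primes -/

/-- counts -/
def AP (P : ℕ → Prop) (d : ℝ) : Prop := ∀ ε : ℝ, 0 < ε →
    (∀ᶠ n : ℕ in atTop,
      |({z : ℕ × ℕ | z ∈ FP n ∧ P (n - z.1 - z.2)}.ncard : ℝ) * Real.log n ^ 2 - d * (n ^ 2 / 2)| ≤ ε * n ^ 2) ∧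
    (∀ C : ℕ, ∀ᶠ N : ℕ in atTop, ∃ X : Finset ℕ, (X.card : ℝ) * Real.log N ^ C ≤ N ∧ ∀ k ∈ Icc 1 N, k ∉ X →
      |({p : ℕ | p ∈ FS k N ∧ P (p - k)}.ncard : ℝ) * Real.log N - d * N| ≤ ε * N) ∧
    (∀ C : ℕ, ∀ᶠ N : ℕ in atTop, ∃ X : Finset ℕ, (X.card : ℝ) * Real.log N ^ C ≤ N ∧ ∀ n ∈ Ioc N (2 * N), n ∉ X →
      |({p : ℕ | p ∈ FO n ∧ P (n - p)}.ncard : ℝ) * Real.log n - d * n| ≤ ε * n)

/-- sums -/
def AS (g : ℕ → ℝ) (d : ℝ) : Prop := ∀ ε : ℝ, 0 < ε →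
    (∀ᶠ n : ℕ in atTop,
      |(∑ z ∈ FP n, g (n - z.1 - z.2)) * Real.log n ^ 2 - d * (n ^ 2 / 2)| ≤ ε * n ^ 2) ∧
    (∀ C : ℕ, ∀ᶠ N : ℕ in atTop, ∃ X : Finset ℕ, (X.card : ℝ) * Real.log N ^ C ≤ N ∧ ∀ k ∈ Icc 1 N, k ∉ X →
      |(∑ p ∈ FS k N, g (p - k)) * Real.log N - d * N| ≤ ε * N) ∧
    (∀ C : ℕ, ∀ᶠ N : ℕ in atTop, ∃ X : Finset ℕ, (X.card : ℝ) * Real.log N ^ C ≤ N ∧ ∀ n ∈ Ioc N (2 * N), n ∉ X →
      |(∑ p ∈ FO n, g (n - p)) * Real.log n - d * n| ≤ ε * n)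

theorem AP_of {P : ℕ → Prop} {d : ℝ} (h : App (fun _ z => 0 < z ∧ P z.toNat) d) : AP P d :=
  fun ε hε => ⟨tern_nat h ε hε, fun C => diff_nat h C ε hε, fun C => sum_nat h C ε hε⟩

theorem AP_not {P : ℕ → Prop} {d : ℝ} (h : App (fun _ z => 0 < z ∧ P z.toNat) d) : AP (fun n => ¬ P n) (1 - d) :=
  fun ε hε => ⟨tern_not h ε hε, fun C => diff_not h C ε hε, fun C => sum_not h C ε hε⟩

lemma ncard_filter {α : Type*} (F : Finset α) (Q : α → Prop) :
    ({z | z ∈ F ∧ Q z}.ncard : ℝ) = ∑ z ∈ F, (open Classical in if Q z then (1 : ℝ) else 0) := by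
  classical
  have h1 : {z | z ∈ F ∧ Q z} = ((F.filter Q : Finset α) : Set α) := by
    ext z
    rw [mem_coe, mem_filter]; rfl
  rw [h1, Set.ncard_coe_finset, Finset.sum_boole]

/-- two values up to an error -/
lemma weak_fin {α : Type*} (F : Finset α) (v : α → ℕ) (g : ℕ → ℝ) (P1 P2 : ℕ → Prop) {a1 a2 κ M : ℝ}
    (hκ : 0 ≤ κ) (hM : ∀ n, |g n| ≤ M) (h1 : ∀ n, P1 n → |g n - a1| ≤ κ) (h2 : ∀ n, P2 n → g n = a2)
    (hd : ∀ n, P1 n → ¬ P2 n) :
    |∑ z ∈ F, g (v z) - (a1 * ({z | z ∈ F ∧ P1 (v z)}.ncard : ℝ) + a2 * ({z | z ∈ F ∧ P2 (v z)}.ncard : ℝ))| ≤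
      κ * F.card + M * (F.card - ({z | z ∈ F ∧ P1 (v z)}.ncard : ℝ) - ({z | z ∈ F ∧ P2 (v z)}.ncard : ℝ)) := by
  classical
  have hM0 : 0 ≤ M := (abs_nonneg _).trans (hM 0)
  have e1 := ncard_filter F (fun z => P1 (v z))
  have e2 := ncard_filter F (fun z => P2 (v z))
  rw [e1, e2]
  have e3 : (F.card : ℝ) = ∑ z ∈ F, (1 : ℝ) := by rw [sum_const, nsmul_eq_mul, mul_one]
  rw [e3, mul_sum, mul_sum, mul_sum, ← sum_add_distrib, ← sum_sub_distrib, ← sum_sub_distrib, ← sum_sub_distrib,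
    mul_sum, ← sum_add_distrib]
  refine (abs_sum_le_sum_abs _ _).trans (sum_le_sum fun z _ => ?_)
  by_cases hp : P1 (v z)
  · rw [if_pos hp, if_neg (hd _ hp)]
    have := h1 _ hp
    rw [mul_one, mul_zero, add_zero, mul_one, sub_self, sub_zero, mul_zero, add_zero]
    exact this
  · rw [if_neg hp]
    by_cases hq : P2 (v z)
    · rw [if_pos hq, h2 _ hq]
      rw [mul_zero, zero_add, mul_one, sub_self, abs_zero, mul_one, sub_zero, sub_self, mul_zero, add_zero]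
      exact hκ
    · rw [if_neg hq]
      rw [mul_zero, mul_zero, add_zero, sub_zero, mul_one, sub_zero, sub_zero, mul_one]
      have := hM (v z)
      linarith

lemma comb {S f f1 f2 t X Y a1 a2 κ κ' M δ : ℝ} (hS : |S - (a1 * f1 + a2 * f2)| ≤ κ * f + M * (f - f1 - f2))
    (ht : 0 ≤ t) (hXY : X ≤ Y) (hκ : 0 ≤ κ) (hM : 0 ≤ M) (ha1 : |a1| ≤ M) (ha2 : |a2| ≤ M)
    (h0 : |f * t - X| ≤ κ' * Y) (h1 : |f1 * t - δ * X| ≤ κ' * Y) (h2 : |f2 * t - (1 - δ) * X| ≤ κ' * Y) :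
    |S * t - (δ * a1 + (1 - δ) * a2) * X| ≤ (κ * (1 + κ') + 5 * M * κ') * Y := by
  have e : S * t - (δ * a1 + (1 - δ) * a2) * X = (S - (a1 * f1 + a2 * f2)) * t + a1 * (f1 * t - δ * X) +
      a2 * (f2 * t - (1 - δ) * X) := by ring
  rw [e]
  have g0 := abs_le.1 h0
  have g1 := abs_le.1 h1
  have g2 := abs_le.1 h2
  have b1 : |(S - (a1 * f1 + a2 * f2)) * t| ≤ κ * (X + κ' * Y) + M * (3 * (κ' * Y)) := by
    rw [abs_mul, abs_of_nonneg ht]
    have c1 := mul_le_mul_of_nonneg_right hS ht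
    have c2 : κ * (f * t) ≤ κ * (X + κ' * Y) := mul_le_mul_of_nonneg_left (by linarith [g0.2]) hκ
    have c3 : M * (f * t - f1 * t - f2 * t) ≤ M * (3 * (κ' * Y)) :=
      mul_le_mul_of_nonneg_left (by linarith [g0.2, g1.1, g2.1]) hM
    nlinarith
  have b2 : |a1 * (f1 * t - δ * X)| ≤ M * (κ' * Y) := by
    rw [abs_mul]
    exact mul_le_mul ha1 h1 (abs_nonneg _) hM
  have b3 : |a2 * (f2 * t - (1 - δ) * X)| ≤ M * (κ' * Y) := by
    rw [abs_mul]
    exact mul_le_mul ha2 h2 (abs_nonneg _) hM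
  have b4 : κ * X ≤ κ * Y := mul_le_mul_of_nonneg_left hXY hκ
  refine (abs_add_three _ _ _).trans ?_
  nlinarith

lemma union3 {X0 X1 X2 : Finset ℕ} {N C : ℕ} (h0 : (X0.card : ℝ) * Real.log N ^ (C + 1) ≤ N)
    (h1 : (X1.card : ℝ) * Real.log N ^ (C + 1 + 1) ≤ N) (h2 : (X2.card : ℝ) * Real.log N ^ (C + 1 + 1) ≤ N)
    (hl : 2 ≤ Real.log (N : ℝ)) : ((X0 ∪ (X1 ∪ X2)).card : ℝ) * Real.log N ^ C ≤ N :=
  union_small h0 (union_small h1 h2 hl) hl

theorem AS_of {g : ℕ → ℝ} {a1 a2 M δ : ℝ} {P2 : ℕ → Prop} (hM : ∀ n, |g n| ≤ M) (ha1 : |a1| ≤ M) (ha2 : |a2| ≤ M)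
    (h1 : ∀ κ : ℝ, 0 < κ → ∃ P1 : ℕ → Prop, (∀ n, P1 n → |g n - a1| ≤ κ) ∧ (∀ n, P1 n → ¬ P2 n) ∧ AP P1 δ)
    (h2 : ∀ n, P2 n → g n = a2) (h3 : AP P2 (1 - δ)) (h4 : AP (fun _ => True) 1) :
    AS g (δ * a1 + (1 - δ) * a2) := by
  intro ε hε
  have hM0 : 0 ≤ M := (abs_nonneg _).trans (hM 0)
  obtain ⟨P1, p1, p2, p3⟩ := h1 (ε / 4) (by positivity)
  set κ' : ℝ := min 1 (ε / (10 * (M + 1))) with hκ'
  have hκ'0 : 0 < κ' := lt_min one_pos (by positivity)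
  have hκ'1 : κ' ≤ 1 := min_le_left _ _
  have hκ'2 : κ' * (10 * (M + 1)) ≤ ε := by
    have := min_le_right (1 : ℝ) (ε / (10 * (M + 1)))
    rw [← hκ', le_div_iff₀ (by positivity)] at this
    exact this
  have hfin : ∀ Y : ℝ, 0 ≤ Y → (ε / 4 * (1 + κ') + 5 * M * κ') * Y ≤ ε * Y := by
    intro Y hY
    apply mul_le_mul_of_nonneg_right _ hY
    nlinarith
  obtain ⟨u1, u2, u3⟩ := p3 κ' hκ'0
  obtain ⟨v1, v2, v3⟩ := h3 κ' hκ'0
  obtain ⟨w1, w2, w3⟩ := h4 κ' hκ'0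
  have ctrue : ∀ {α : Type} (F : Finset α), ({z | z ∈ F ∧ True}.ncard : ℝ) = F.card := by
    intro α F
    have : {z | z ∈ F ∧ True} = (F : Set α) := by ext z; simp
    rw [this, Set.ncard_coe_finset]
  refine ⟨?_, fun C => ?_, fun C => ?_⟩
  · filter_upwards [u1, v1, w1] with n x1 x2 x3
    rw [ctrue, one_mul] at x3
    have hS := weak_fin (FP n) (fun z => n - z.1 - z.2) g P1 P2 (show 0 ≤ ε / 4 by positivity) hM p1 h2 p2
    refine (comb (t := Real.log n ^ 2) (X := (n : ℝ) ^ 2 / 2) (Y := (n : ℝ) ^ 2) hS (by positivity)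
      (by have : (0 : ℝ) ≤ (n : ℝ) ^ 2 := by positivity
          linarith) (by positivity) hM0 ha1 ha2 x3 x1 x2).trans (hfin _ (by positivity))
  · filter_upwards [u2 (C + 1), v2 (C + 1 + 1), w2 (C + 1 + 1), tlog.eventually_ge_atTop 2] with N x1 x2 x3 hl
    obtain ⟨X1, s1, t1⟩ := x1
    obtain ⟨X2, s2, t2⟩ := x2
    obtain ⟨X3, s3, t3⟩ := x3
    refine ⟨X1 ∪ (X2 ∪ X3), union3 s1 s2 s3 hl, fun k hk hkX => ?_⟩
    rw [mem_union, mem_union, not_or, not_or] at hkX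
    have y1 := t1 k hk hkX.1
    have y2 := t2 k hk hkX.2.1
    have y3 := t3 k hk hkX.2.2
    rw [ctrue, one_mul] at y3
    have hS := weak_fin (FS k N) (fun p => p - k) g P1 P2 (show 0 ≤ ε / 4 by positivity) hM p1 h2 p2
    exact (comb (t := Real.log N) (X := (N : ℝ)) (Y := (N : ℝ)) hS (by linarith)
      le_rfl (by positivity) hM0 ha1 ha2 y3 y1 y2).trans (hfin _ (by positivity))
  · filter_upwards [u3 (C + 1), v3 (C + 1 + 1), w3 (C + 1 + 1), tlog.eventually_ge_atTop 2] with N x1 x2 x3 hl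
    obtain ⟨X1, s1, t1⟩ := x1
    obtain ⟨X2, s2, t2⟩ := x2
    obtain ⟨X3, s3, t3⟩ := x3
    refine ⟨X1 ∪ (X2 ∪ X3), union3 s1 s2 s3 hl, fun n hn hnX => ?_⟩
    rw [mem_union, mem_union, not_or, not_or] at hnX
    have y1 := t1 n hn hnX.1
    have y2 := t2 n hn hnX.2.1
    have y3 := t3 n hn hnX.2.2
    rw [ctrue, one_mul] at y3
    have hS := weak_fin (FO n) (fun p => n - p) g P1 P2 (show 0 ≤ ε / 4 by positivity) hM p1 h2 p2
    exact (comb (t := Real.log n) (X := (n : ℝ)) (Y := (n : ℝ)) hS (Real.log_natCast_nonneg n)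
      le_rfl (by positivity) hM0 ha1 ha2 y3 y1 y2).trans (hfin _ (by positivity))

theorem AP_true : AP (fun _ => True) 1 := by
  have h : App (fun _ z => 0 < z ∧ (fun _ : ℕ => True) z.toNat) 1 := by
    intro η hη K
    filter_upwards [App_true η hη K] with N hN
    obtain ⟨E, L, P, P', h1, h2, h3, h4, h5, h6, h7⟩ := hN
    refine ⟨E, L, P, P', h1, h2, h3, h4, h5, ?_, h7⟩
    intro x hx
    rw [mem_Icc] at hx
    exact ⟨fun _ => ⟨by omega, trivial⟩, fun _ => (h6 x (mem_Icc.2 hx)).2 trivial⟩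
  exact AP_of h

end Pool.Agent.TH465.SC
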